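import Pool.Agent.MP_ce43bb_an.H78.Base

/-! Part S: creation plus annihilation operators form a free semicircular family. -/

open scoped InnerProductSpace ENNReal Topology
open Filter

noncomputable section

namespace Pool.Agent.MP_ce43bb_an.H6
open Pool.Agent.MP_ce43bb_an.H78

section Abstract
variable {H : Type} [NormedAddCommGroup H] [InnerProductSpace ℂ H] [CompleteSpace H]

theorem pow_mul_l {l : H →L[ℂ] H} (hl : star l * l = 1) (m : ℕ) :
    (l + star l) ^ m * l = l * (l + star l) ^ m +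
      ∑ i ∈ Finset.range m, (l + star l) ^ (m - 1 - i) * (1 - l * star l) * (l + star l) ^ i := by
  have h1 : (l + star l) * l = l * (l + star l) + (1 - l * star l) := by
    rw [add_mul, mul_add, hl]; abel
  induction m with
  | zero => simp
  | succ m ih =>
    rw [pow_succ', mul_assoc, ih, mul_add, ← mul_assoc, h1, add_mul, Finset.sum_range_succ,
      Finset.mul_sum, mul_assoc l, ← pow_succ']
    have : ∑ i ∈ Finset.range m,
        (l + star l) * ((l + star l) ^ (m - 1 - i) * (1 - l * star l) * (l + star l) ^ i) =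
        ∑ i ∈ Finset.range m,
          (l + star l) ^ (m + 1 - 1 - i) * (1 - l * star l) * (l + star l) ^ i := by
      refine Finset.sum_congr rfl fun i hi => ?_
      have hi' := Finset.mem_range.mp hi
      have e : m + 1 - 1 - i = (m - 1 - i) + 1 := by omega
      rw [e, pow_succ', mul_assoc, mul_assoc, mul_assoc]
    rw [this]
    have e : m + 1 - 1 - m = 0 := by omega
    rw [e, pow_zero, one_mul]
    abel

theorem inner_Q {l : H →L[ℂ] H} {Ω : H} (h0 : star l Ω = 0) (x : H) :
    ⟪Ω, (1 - l * star l) x⟫_ℂ = ⟪Ω, x⟫_ℂ := by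
  have : ⟪Ω, l (star l x)⟫_ℂ = 0 := by
    rw [← Fock.inner_star_left, h0, inner_zero_left]
  simp only [sub_apply, one_apply_eq_self,
    mul_apply_eq_comp, inner_sub_right, this, sub_zero]

theorem Q_pow {l : H →L[ℂ] H} (hl : star l * l = 1) {Ω : H} (hΩ : ⟪Ω, Ω⟫_ℂ = 1)
    (h0 : star l Ω = 0) (m : ℕ) :
    (∀ ζ, star l ζ = 0 → (1 - l * star l) (((l + star l) ^ m) ζ) =
      tau Ω ((l + star l) ^ m) • ζ) ∧
    (∀ k, m = k + 1 → tau Ω ((l + star l) ^ m) = ∑ i ∈ Finset.range k,
      tau Ω ((l + star l) ^ (k - 1 - i)) * tau Ω ((l + star l) ^ i)) := by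
  induction m using Nat.strong_induction_on with
  | _ m ih =>
    rcases m with _ | k
    · refine ⟨fun ζ hζ => ?_, fun k hk => by omega⟩
      have t1 : tau Ω ((l + star l) ^ 0) = 1 := by rw [pow_zero]; exact hΩ
      rw [t1]
      simp [hζ]
    · have hQl : ∀ x, (1 - l * star l) (l x) = 0 := by
        intro x
        have : star l (l x) = x := by
          rw [← mul_apply_eq_comp, hl]; rfl
        simp [this]
      have main : ∀ ζ, star l ζ = 0 → (1 - l * star l) (((l + star l) ^ (k + 1)) ζ) =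
          (∑ i ∈ Finset.range k,
            tau Ω ((l + star l) ^ (k - 1 - i)) * tau Ω ((l + star l) ^ i)) • ζ := by
        intro ζ hζ
        have e1 : ((l + star l) ^ (k + 1)) ζ = ((l + star l) ^ k * l) ζ := by
          rw [pow_succ]
          simp [hζ]
        rw [e1, pow_mul_l hl k, add_apply, map_add,
          mul_apply_eq_comp l, hQl, zero_add, sum_apply, map_sum,
          Finset.sum_smul]
        refine Finset.sum_congr rfl fun i hi => ?_
        have hi' := Finset.mem_range.mp hi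
        rw [mul_apply_eq_comp, mul_apply_eq_comp,
          (ih i (by omega)).1 ζ hζ, map_smul, map_smul, (ih (k - 1 - i) (by omega)).1 ζ hζ,
          smul_smul, mul_comm]
      have hc : tau Ω ((l + star l) ^ (k + 1)) = ∑ i ∈ Finset.range k,
          tau Ω ((l + star l) ^ (k - 1 - i)) * tau Ω ((l + star l) ^ i) := by
        have := congrArg (fun x => ⟪Ω, x⟫_ℂ) (main Ω h0)
        simp only [inner_Q h0, inner_smul_right, hΩ, mul_one] at this
        exact this
      refine ⟨fun ζ hζ => by rw [main ζ hζ, hc], fun k' hk => ?_⟩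
      obtain rfl : k = k' := by omega
      exact hc

theorem sum_even_odd (f : ℕ → ℂ) (k : ℕ) :
    ∑ i ∈ Finset.range (2 * k + 1), f i =
      ∑ j ∈ Finset.range (k + 1), f (2 * j) + ∑ j ∈ Finset.range k, f (2 * j + 1) := by
  induction k with
  | zero => simp
  | succ k ih =>
    have e : 2 * (k + 1) + 1 = (2 * k + 1) + 1 + 1 := by ring
    rw [e, Finset.sum_range_succ, Finset.sum_range_succ, ih, Finset.sum_range_succ _ (k + 1),
      Finset.sum_range_succ (fun j => f (2 * j + 1)) k]
    have e2 : 2 * k + 1 + 1 = 2 * (k + 1) := by ring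
    rw [e2]; ring

theorem moments (c : ℕ → ℂ) (c0 : c 0 = 1)
    (hc : ∀ k, c (k + 1) = ∑ i ∈ Finset.range k, c (k - 1 - i) * c i) (k : ℕ) :
    c (2 * k) = catalan k ∧ c (2 * k + 1) = 0 := by
  induction k using Nat.strong_induction_on with
  | _ k ih =>
    have hodd : c (2 * k + 1) = 0 := by
      rw [hc]
      refine Finset.sum_eq_zero fun i hi => ?_
      have hi' := Finset.mem_range.mp hi
      rcases Nat.even_or_odd' i with ⟨j, rfl | rfl⟩
      · have e : 2 * k - 1 - 2 * j = 2 * (k - 1 - j) + 1 := by omega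
        rw [e, (ih _ (by omega)).2, zero_mul]
      · rw [(ih j (by omega)).2, mul_zero]
    refine ⟨?_, hodd⟩
    rcases k with _ | k
    · simp [c0]
    · have e : 2 * (k + 1) = (2 * k + 1) + 1 := by ring
      rw [e, hc, sum_even_odd, catalan_succ', Finset.Nat.sum_antidiagonal_eq_sum_range_succ_mk]
      have z : ∑ j ∈ Finset.range k, c (2 * k + 1 - 1 - (2 * j + 1)) * c (2 * j + 1) = 0 := by
        refine Finset.sum_eq_zero fun j hj => ?_
        have hj' := Finset.mem_range.mp hj
        rw [(ih j (by omega)).2, mul_zero]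
      rw [z, add_zero]
      push_cast
      refine Finset.sum_congr rfl fun j hj => ?_
      have hj' := Finset.mem_range.mp hj
      have e2 : 2 * k - 2 * j = 2 * (k - j) := by omega
      rw [e2, (ih j (by omega)).1, (ih (k - j) (by omega)).1, mul_comm]

theorem isSemicircular {l : H →L[ℂ] H} (hl : star l * l = 1) {Ω : H} (hΩ : ⟪Ω, Ω⟫_ℂ = 1)
    (h0 : star l Ω = 0) : IsSemicircular Ω (l + star l) := by
  refine ⟨?_, moments (fun m => tau Ω ((l + star l) ^ m)) (by simp only [pow_zero]; exact hΩ) fun k =>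
    (Q_pow hl hΩ h0 (k + 1)).2 k rfl⟩
  simp [IsSelfAdjoint, add_comm]

theorem Q_adjoin {l : H →L[ℂ] H} (hl : star l * l = 1) {Ω : H} (hΩ : ⟪Ω, Ω⟫_ℂ = 1)
    (h0 : star l Ω = 0) {a : H →L[ℂ] H} (ha : a ∈ Algebra.adjoin ℂ {l + star l})
    {ζ : H} (hζ : star l ζ = 0) : (1 - l * star l) (a ζ) = tau Ω a • ζ := by
  rw [Algebra.adjoin_singleton_eq_range_aeval] at ha
  obtain ⟨p, rfl⟩ := ha
  change (1 - l * star l) (Polynomial.aeval (l + star l) p ζ) =
    tau Ω (Polynomial.aeval (l + star l) p) • ζ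
  induction p using Polynomial.induction_on' with
  | add p q hp hq =>
    rw [map_add, add_apply, map_add, hp, hq, ← add_smul]
    simp [tau]
  | monomial m c =>
    rw [Polynomial.aeval_monomial, ← Algebra.smul_def, smul_apply, map_smul,
      (Q_pow hl hΩ h0 m).1 ζ hζ, smul_smul]
    simp [tau]

theorem mem_range {l : H →L[ℂ] H} (hl : star l * l = 1) {Ω : H} (hΩ : ⟪Ω, Ω⟫_ℂ = 1)
    (h0 : star l Ω = 0) {a : H →L[ℂ] H} (ha : a ∈ Algebra.adjoin ℂ {l + star l})
    (ht : tau Ω a = 0) {ζ : H} (hζ : star l ζ = 0) : ∃ η, a ζ = l η := by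
  have := Q_adjoin hl hΩ h0 ha hζ
  rw [ht, zero_smul] at this
  refine ⟨star l (a ζ), ?_⟩
  simpa [sub_eq_zero] using this

end Abstract

variable {L Γ : Type} [DecidableEq L] [AddCommGroup Γ] [DecidableEq Γ]
  {H : Type} [NormedAddCommGroup H] [InnerProductSpace ℂ H] [CompleteSpace H]
  (F : Fock L Γ H) {n : ℕ}

theorem freeSemicircular (σ : Fin n → L) (hσ : Function.Injective σ) (hn : ∀ i, F.IsNoise (σ i))
    (N : StarSubalgebra ℂ (H →L[ℂ] H))
    (key : ∀ a ∈ N, ∀ i j, star (F.l (σ i, 0)) * a * F.l (σ j, 0) =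
      (if σ i = σ j then tau F.Ω a else 0) • 1)
    (key0 : ∀ a ∈ N, ∀ i, star (F.l (σ i, 0)) (a F.Ω) = 0)
    (B : Set (H →L[ℂ] H)) (hB : B ⊆ N) :
    FreeSemicircular F.Ω B (fun i => F.S (σ i, 0)) := by
  have _ := hn
  have hl : ∀ i, star (F.l (σ i, 0)) * F.l (σ i, 0) = 1 := fun i => by
    rw [F.star_l_mul_l, F.k1_self]; simp
  have hll : ∀ i j, i ≠ j → ∀ η, star (F.l (σ i, 0)) (F.l (σ j, 0) η) = 0 := fun i j hij η => by
    rw [← mul_apply_eq_comp, F.star_l_mul_l]
    simp [k1, hσ.ne hij]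
  have hBN : ∀ a ∈ Algebra.adjoin ℂ B, a ∈ N := fun a ha =>
    (Algebra.adjoin_le (S := N.toSubalgebra) hB) ha
  refine ⟨fun i => isSemicircular (hl i) F.inner_Ω_Ω (F.star_l_Ω _), ?_⟩
  have main : ∀ (t : List (Option (Fin n) × (H →L[ℂ] H))) (p : Option (Fin n) × (H →L[ℂ] H)),
      (∀ q ∈ p :: t, q.2 ∈ (q.1.elim (Algebra.adjoin ℂ B)
        (fun i => Algebra.adjoin ℂ {F.S (σ i, 0)}) : Subalgebra ℂ (H →L[ℂ] H)) ∧
          tau F.Ω q.2 = 0) →
      (p :: t).IsChain (fun p q => p.1 ≠ q.1) →
      (∀ i, p.1 = some i → ∃ η, ((p :: t).map Prod.snd).prod F.Ω = F.l (σ i, 0) η) ∧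
      (p.1 = none → ⟪F.Ω, ((p :: t).map Prod.snd).prod F.Ω⟫_ℂ = 0 ∧
        ∀ j, star (F.l (σ j, 0)) (((p :: t).map Prod.snd).prod F.Ω) = 0) := by
    intro t
    induction t with
    | nil =>
      rintro ⟨o, a⟩ hm -
      obtain ⟨ha, ht⟩ := hm (o, a) (by simp)
      simp only [List.map_cons, List.map_nil, List.prod_cons, List.prod_nil, mul_one]
      refine ⟨fun i hi => ?_, fun ho => ?_⟩
      · subst hi
        exact mem_range (hl i) F.inner_Ω_Ω (F.star_l_Ω _) ha ht (F.star_l_Ω _)
      · subst ho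
        exact ⟨ht, fun j => key0 a (hBN a ha) j⟩
    | cons q t ih =>
      rintro ⟨o, a⟩ hm hc
      obtain ⟨ha, ht⟩ := hm (o, a) (by simp)
      rw [List.isChain_cons_cons] at hc
      obtain ⟨h1, h2⟩ := ih q (fun r hr => hm r (List.mem_cons_of_mem _ hr)) hc.2
      have hne := hc.1
      rw [List.map_cons, List.prod_cons, mul_apply_eq_comp]
      refine ⟨fun i hi => ?_, fun ho => ?_⟩
      · simp only at hi
        subst hi
        refine mem_range (hl i) F.inner_Ω_Ω (F.star_l_Ω _) ha ht ?_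
        rcases hq : q.1 with _ | j
        · exact (h2 hq).2 i
        · obtain ⟨η, hη⟩ := h1 j hq
          rw [hη]
          refine hll i j (fun e => hne ?_) η
          rw [hq, e]
      · simp only at ho
        subst ho
        rcases hq : q.1 with _ | j
        · exact absurd hq.symm hne
        · obtain ⟨η, hη⟩ := h1 j hq
          rw [hη]
          have haN := hBN a ha
          refine ⟨?_, fun i => ?_⟩
          · simp only
            rw [← Fock.inner_star_left, ← Fock.inner_star_left, key0 _ (star_mem haN) j,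
              inner_zero_left]
          · have := congrArg (fun T : H →L[ℂ] H => T η) (key a haN i j)
            simp only at ht
            simpa [ht] using this
  intro t hne hm hc
  obtain ⟨p, t, rfl⟩ := List.exists_cons_of_ne_nil hne
  obtain ⟨h1, h2⟩ := main t p hm hc
  rcases hp : p.1 with _ | i
  · exact (h2 hp).1
  · obtain ⟨η, hη⟩ := h1 i hp
    rw [tau, hη, ← Fock.inner_star_left, F.star_l_Ω, inner_zero_left]

end Pool.Agent.MP_ce43bb_an.H6
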